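import Pool.Agent.U189.NF.Ring

/-!
# Toroidal divisors on covers of projective space branched along normal crossing hypersurfaces

**The covers.** Let `F k`, `k = 0, ..., n`, be forms of degrees `d k` in `n + 1` variables whose
zero sets in the projective `n`-space are smooth hypersurfaces with normal crossings (at every point
the gradients of the forms which vanish there are linearly independent). Let `Y` be a normal abelian
cover of the projective space which is branched only along these hypersurfaces: the function field `K`
of `Y` is generated by the affine coordinates `x (b + 1) / x 0` and by roots `z j`,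
`z j ^ (m j) = ∏ k, (F k (x) / x 0 ^ (d k)) ^ (a j k)`, where `m j` divides `∑ k, a j k * d k`.
(Covers which are branched along fewer hypersurfaces are included: add general hyperplanes, with
`a j k = 0`; for `R = 0` the variety `Y` is the projective space itself.) There is no condition on the
degrees, so `Y` can be rationally connected, Calabi-Yau, of general type or of any intermediate type.

A prime divisor `P` over `Y` (a divisorial place of `K`) has the vector `multiplicities F d x P` of the
multiplicities `v k` of the hypersurfaces along `P`. The vectors `v ≠ 0` of nonnegative integers, not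
all positive, with `m j ∣ ∑ k, a j k * v k` for all `j` are the `Admissible` ones: the nonzero lattice
points of the cone complex of the toroidal variety `Y` (with the boundary `F k = 0`), which is the
boundary of the positive orthant. The toroidal modifications `X` of `Y` are given by the subdivisions
of this complex into rational polyhedral cones; `fan` is the set of the cones, each given by admissible
generators. (It is enough to list cones which cover all admissible vectors.)

**The divisors.** `D 1, ..., D p` are toroidal `ℚ`-Cartier divisors on `X`: sums of multiples `β i` of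
the hyperplane class and of the prime divisors of the boundary of `X`. The coefficient of the pullback
of `D i` at a prime divisor `P` over `X` is `coefficient F d x (c i) (β i) P = c i v + β i * h`, where
`v` is the vector of the multiplicities, `h` is minus the minimal order at `P` of the homogeneous
coordinates, and `- c i v = ∑ k, u σ i k * v k` on the cone `σ`. Take divisors `D i` which generate all
toroidal `ℚ`-Cartier divisors on a `ℚ`-factorial `X`. If `n ≥ 3` and if every generator of a ray has at
most `n - 1` positive coordinates (only strata of positive dimension, which are irreducible, are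
modified), then every divisor on `X` is, up to `ℚ`-linear equivalence, toroidal, and the numerical
classes of the `ℝ`-divisors on `X` are the real combinations of the classes of the `D i` (Lefschetz;
this remark is not used and not proved here). The Picard number of these `X` is arbitrarily large.

`cox_nc`: the Cox ring `⨁ H^0(X, ∑ i, μ i * D i)` over all integral `μ` is finitely generated.
-/

set_option autoImplicit false

open FF MvPolynomial Pool.Agent.W602.GT

namespace Pool.Agent.U189.ND

/-- The hypersurfaces `F k = 0` have normal crossings: at every point of the projective space the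
gradients of the forms `F k` which vanish at this point are linearly independent. -/
def NormalCrossings {n : ℕ} (F : Fin (n + 1) → MvPolynomial (Fin (n + 1)) ℂ) : Prop :=
  ∀ x : Fin (n + 1) → ℂ, x ≠ 0 → LinearIndependent ℂ
    fun (k : {k // eval x (F k) = 0}) (l : Fin (n + 1)) => eval x (pderiv l (F k.1))

section fans

variable {n R : ℕ}

/-- The multiplicities which satisfy the divisibility conditions. -/
def Admissible (m : Fin R → ℕ) (a : Fin R → Fin (n + 1) → ℕ) (v : Fin (n + 1) → ℕ) : Prop :=
  v ≠ 0 ∧ (∃ k, v k = 0) ∧ ∀ j, m j ∣ ∑ k, a j k * v k

/-- The vector `v` is in the cone which is generated by the vectors in `σ`. -/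
def InCone (σ : Finset (Fin (n + 1) → ℕ)) (v : Fin (n + 1) → ℕ) : Prop :=
  ∃ w : (Fin (n + 1) → ℕ) → ℚ, (∀ s, 0 ≤ w s) ∧ ∀ k, (v k : ℚ) = ∑ s ∈ σ, w s * s k

/-- `fan` is a finite set of cones, each generated by a finite set of admissible vectors, which cover
all admissible vectors. -/
structure IsFan (m : Fin R → ℕ) (a : Fin R → Fin (n + 1) → ℕ)
    (fan : Finset (Finset (Fin (n + 1) → ℕ))) : Prop where
  adm : ∀ σ ∈ fan, ∀ s ∈ σ, Admissible m a s
  cover : ∀ v, Admissible m a v → ∃ σ ∈ fan, InCone σ v

end fans

section places

variable {n : ℕ} {K : Type} [Field K] [Algebra ℂ K]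

/-- The affine coordinates of the projective space. -/
noncomputable def affine (x : Fin (n + 1) → K) (b : Fin n) : K := x b.succ / x 0

/-- The minimal order at `P` of the homogeneous coordinates `x`. -/
noncomputable def minimalOrder (x : Fin (n + 1) → K) (P : Place ℂ K) : ℤ :=
  Finset.univ.inf' Finset.univ_nonempty fun j => P.ord (x j)

/-- The multiplicities of the hypersurfaces `F k = 0` along the prime divisor `P`; the `x j` are the
homogeneous coordinates, which are divided by one of minimal order at `P`. -/
noncomputable def multiplicities (F : Fin (n + 1) → MvPolynomial (Fin (n + 1)) ℂ)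
    (d : Fin (n + 1) → ℕ) (x : Fin (n + 1) → K) (P : Place ℂ K) (k : Fin (n + 1)) : ℕ :=
  (P.ord (aeval x (F k)) - d k * minimalOrder x P).toNat

/-- The coefficient at the prime divisor `P` of the divisor with the function `c` of the
multiplicities and the degree `β`: it is `c v` plus `β` times the coefficient at `P` of the hyperplane
class, which is represented by the divisor with the coefficients `- minimalOrder x` (its sections are
the linear forms in the `x j`). -/
noncomputable def coefficient (F : Fin (n + 1) → MvPolynomial (Fin (n + 1)) ℂ)
    (d : Fin (n + 1) → ℕ) (x : Fin (n + 1) → K) (c : (Fin (n + 1) → ℕ) → ℚ) (β : ℤ)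
    (P : Place ℂ K) : ℚ :=
  c (multiplicities F d x P) - (β : ℚ) * minimalOrder x P

end places

/-- **The Cox ring.** It is finitely generated. -/
theorem cox_nc (n R p : ℕ) (hn : 1 ≤ n) (d : Fin (n + 1) → ℕ) (hd : ∀ k, 1 ≤ d k)
    (F : Fin (n + 1) → MvPolynomial (Fin (n + 1)) ℂ) (hF : ∀ k, (F k).IsHomogeneous (d k))
    (hs : NormalCrossings F) (m : Fin R → ℕ) (hm : ∀ j, 1 ≤ m j) (a : Fin R → Fin (n + 1) → ℕ)
    (hdiv : ∀ j, m j ∣ ∑ k, a j k * d k)
    (K : Type) [Field K] [Algebra ℂ K] (x : Fin (n + 1) → K) (hx0 : x 0 ≠ 0)
    (hbas : IsTranscendenceBasis ℂ (affine x)) (z : Fin R → K)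
    (hz : ∀ j, z j ^ m j = ∏ k, (aeval x (F k) / x 0 ^ d k) ^ a j k)
    (hgen : IntermediateField.adjoin ℂ (Set.range (affine x) ∪ Set.range z) = ⊤)
    (fan : Finset (Finset (Fin (n + 1) → ℕ))) (hfan : IsFan m a fan)
    (c : Fin p → (Fin (n + 1) → ℕ) → ℚ) (hc0 : ∀ i, c i 0 = 0) (β : Fin p → ℤ)
    (u : Finset (Fin (n + 1) → ℕ) → Fin p → Fin (n + 1) → ℚ)
    (hlin : ∀ σ ∈ fan, ∀ i v, Admissible m a v → InCone σ v → - c i v = ∑ k, u σ i k * v k)
    (δ : Fin p → Place ℂ K → ℚ) (hδ : ∀ i P, δ i P = coefficient F d x (c i) (β i) P) :
    (Pool.Agent.Q57.CX.coxRing n δ).FG := by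
  obtain ⟨e, rfl⟩ : ∃ e, n = e + 1 := ⟨n - 1, by omega⟩
  exact Pool.Agent.U189.NF.main_nc hx0 hbas hd hF hs hm hz hdiv hgen (S := fan)
    ⟨hfan.adm, hfan.cover⟩ hc0 (u := u) hlin (β := β) hδ

end Pool.Agent.U189.ND
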